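import Mathlib
import Pool.Agent.H26.OA1

set_option autoImplicit false

namespace Pool.Agent.Results.MP_f32e1d_an.Counterexample

open H26 OA0

theorem result : ∃ E F : RS, Arch F ∧ ∃ S T U : E → F, OA S ∧ OA T ∧ IsJoin S T U ∧
    ∃ x : E, ¬ ∃ w, IsLUB (Vals S T x) w := by
  obtain ⟨E, F, h0, S, T, U, h1, h2, h3, -, h4⟩ := OA1.main
  exact ⟨E, F, h0, S, T, U, h1, h2, h3, h4⟩

end Pool.Agent.Results.MP_f32e1d_an.Counterexample
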